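import Mathlib

/-!
# Coxeter matrices with labels two, three and infinity and disjoint labels three are of FC type
-/

set_option autoImplicit false

namespace Pool.Agent.U369.AR

section groups

variable {G : Type*} [Group G]

theorem comm_closure {A C : Set G} (h : ∀ x ∈ A, ∀ y ∈ C, x * y = y * x) :
    ∀ x ∈ Subgroup.closure A, ∀ y ∈ Subgroup.closure C, x * y = y * x := by
  have h1 : ∀ x ∈ A, ∀ y ∈ Subgroup.closure C, Commute x y := by
    intro x hx y hy
    induction hy using Subgroup.closure_induction with
    | mem y hy => exact h x hx y hy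
    | one => exact Commute.one_right _
    | mul y z _ _ hy hz => exact hy.mul_right hz
    | inv y _ hy => exact hy.inv_right
  intro x hx y hy
  have h2 : Commute x y := by
    induction hx using Subgroup.closure_induction with
    | mem x hx => exact h1 x hx y hy
    | one => exact Commute.one_left _
    | mul x z _ _ hx hz => exact hx.mul_left hz
    | inv x _ hx => exact hx.inv_left
  exact h2

theorem finite_sup {H K : Subgroup G} [Finite H] [Finite K]
    (hc : ∀ x ∈ H, ∀ y ∈ K, x * y = y * x) : Finite (H ⊔ K : Subgroup G) := by
  have hc' : ∀ (x : H) (y : K), Commute (H.subtype x) (K.subtype y) :=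
    fun x y => hc x x.2 y y.2
  have hr : (MonoidHom.noncommCoprod H.subtype K.subtype hc').range = H ⊔ K := by
    rw [MonoidHom.noncommCoprod_range, Subgroup.range_subtype, Subgroup.range_subtype]
  rw [← hr]
  exact Finite.of_surjective _ (MonoidHom.rangeRestrict_surjective _)

theorem finite_pair {s t : G} (hs : s * s = 1) (ht : t * t = 1) (hst : s * t * s = t * s * t) :
    Finite (Subgroup.closure ({s, t} : Set G)) := by
  let F : Set G := {1, s, t, s * t, t * s, s * t * s}
  have hF : F.Finite := Set.toFinite _
  have hsi : s⁻¹ = s := inv_eq_of_mul_eq_one_left hs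
  have hti : t⁻¹ = t := inv_eq_of_mul_eq_one_left ht
  have e1 : ∀ x, s * (s * x) = x := fun x => by rw [← mul_assoc, hs, one_mul]
  have e2 : ∀ x, t * (t * x) = x := fun x => by rw [← mul_assoc, ht, one_mul]
  have h3 : s * (t * s) = t * (s * t) := by simpa [mul_assoc] using hst
  have hmul : ∀ x ∈ ({s, t} : Set G), ∀ y ∈ F, x * y ∈ F := by
    rintro x (rfl | rfl) y (rfl | rfl | rfl | rfl | rfl | rfl)
    · right; left; exact mul_one _
    · left; exact hs
    · right; right; right; left; rfl
    · right; right; left; exact e1 _
    · right; right; right; right; right; show _ * (_ * _) = _ * _ * _; rw [mul_assoc]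
    · right; right; right; right; left; rw [mul_assoc]; exact e1 _
    · right; right; left; exact mul_one _
    · right; right; right; right; left; rfl
    · left; exact ht
    · right; right; right; right; right; show _ * (_ * _) = _ * _ * _; rw [hst, mul_assoc]
    · right; left; exact e2 _
    · right; right; right; left; rw [hst, mul_assoc]; exact e2 _
  have hsub : (Subgroup.closure ({s, t} : Set G) : Set G) ⊆ F := by
    intro x hx
    induction hx using Subgroup.closure_induction_left with
    | one => left; rfl
    | mul_left x hx y _ hy => exact hmul x hx y hy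
    | inv_mul_cancel x hx y _ hy =>
      have : x⁻¹ = x := by
        rcases hx with rfl | rfl
        · exact hsi
        · exact hti
      rw [this]
      exact hmul x hx y hy
  exact (hF.subset hsub).to_subtype

end groups

theorem fc_aux {S : Type*} [DecidableEq S] (N : CoxeterMatrix S)
    (hl : ∀ s t, s ≠ t → N s t = 2 ∨ N s t = 3 ∨ N s t = 0)
    (ho : ∀ s x y, N x s = 3 → N y s = 3 → x = y) : ∀ (n : ℕ) (T : Finset S), T.card = n →
      (∀ s ∈ T, ∀ t ∈ T, N s t ≠ 0) → Finite (Subgroup.closure (N.simple '' (T : Set S))) := by
  have hcs : N.toCoxeterSystem.simple = N.simple := N.toCoxeterSystem_simple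
  have hsq : ∀ s, N.simple s * N.simple s = 1 := fun s => by
    rw [← hcs]; exact N.toCoxeterSystem.simple_mul_simple_self s
  have hpow : ∀ s t, (N.simple s * N.simple t) ^ N s t = 1 := fun s t => by
    rw [← hcs]; exact N.toCoxeterSystem.simple_mul_simple_pow s t
  have hcomm : ∀ s t, N s t = 2 → N.simple s * N.simple t = N.simple t * N.simple s := by
    intro s t h
    have h1 := hpow s t
    rw [h, pow_two] at h1
    have h2 : N.simple s * N.simple t = (N.simple s * N.simple t)⁻¹ :=
      eq_inv_of_mul_eq_one_left h1
    rw [h2, mul_inv_rev, inv_eq_of_mul_eq_one_left (hsq s), inv_eq_of_mul_eq_one_left (hsq t)]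
  have hbr : ∀ s t, N s t = 3 → N.simple s * N.simple t * N.simple s =
      N.simple t * N.simple s * N.simple t := by
    intro s t h
    have h1 := hpow s t
    rw [h] at h1
    have h2 : (N.simple s * N.simple t * N.simple s) * (N.simple t * N.simple s * N.simple t) =
        1 := by
      rw [← h1]
      simp only [pow_succ, pow_zero, one_mul, mul_assoc]
    have h3 : N.simple s * N.simple t * N.simple s = (N.simple t * N.simple s * N.simple t)⁻¹ :=
      eq_inv_of_mul_eq_one_left h2
    rw [h3, mul_inv_rev, mul_inv_rev, inv_eq_of_mul_eq_one_left (hsq s),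
      inv_eq_of_mul_eq_one_left (hsq t), mul_assoc]
  intro n
  induction n using Nat.strong_induction_on with
  | _ n ih =>
    intro T hn hT
    rcases T.eq_empty_or_nonempty with rfl | ⟨s, hs⟩
    · rw [Finset.coe_empty, Set.image_empty, Subgroup.closure_empty]
      infer_instance
    obtain ⟨t, ht, hst, hx⟩ : ∃ t ∈ T, N.simple s * N.simple t * N.simple s =
        N.simple t * N.simple s * N.simple t ∧
        ∀ x ∈ T, x ≠ s → x ≠ t → N x s = 2 ∧ N x t = 2 := by
      by_cases h : ∃ t ∈ T, N t s = 3
      · obtain ⟨t, ht, h3⟩ := h
        refine ⟨t, ht, hbr s t (by rw [N.symmetric]; exact h3), fun x hxT hxs hxt => ⟨?_, ?_⟩⟩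
        · rcases hl x s hxs with h | h | h
          · exact h
          · exact absurd (ho s x t h h3) hxt
          · exact absurd h (hT x hxT s hs)
        · rcases hl x t hxt with h | h | h
          · exact h
          · exact absurd (ho t x s h (by rw [N.symmetric]; exact h3)) hxs
          · exact absurd h (hT x hxT t ht)
      · push Not at h
        refine ⟨s, hs, rfl, fun x hxT hxs _ => ?_⟩
        have : N x s = 2 := by
          rcases hl x s hxs with h' | h' | h'
          · exact h'
          · exact absurd h' (h x hxT)
          · exact absurd h' (hT x hxT s hs)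
        exact ⟨this, this⟩
    set T' := (T.erase s).erase t with hT'
    have hT'c : T'.card < n := by
      have h1 : (T.erase s).card < T.card := Finset.card_erase_lt_of_mem hs
      have h2 : T'.card ≤ (T.erase s).card := Finset.card_erase_le
      omega
    have hmem : ∀ x ∈ T', x ∈ T ∧ x ≠ s ∧ x ≠ t := by
      intro x hx
      rw [hT', Finset.mem_erase, Finset.mem_erase] at hx
      exact ⟨hx.2.2, hx.2.1, hx.1⟩
    have hf1 : Finite (Subgroup.closure (N.simple '' (T' : Set S))) :=
      ih T'.card hT'c T' rfl fun x hx y hy => hT x (hmem x hx).1 y (hmem y hy).1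
    have hf2 := finite_pair (hsq s) (hsq t) hst
    have hf3 : Finite (Subgroup.closure (N.simple '' (T' : Set S)) ⊔
        Subgroup.closure ({N.simple s, N.simple t} : Set N.Group) : Subgroup N.Group) := by
      apply finite_sup
      apply comm_closure
      rintro _ ⟨x, hx', rfl⟩ y (rfl | rfl)
      · obtain ⟨h1, h2, h3⟩ := hmem x hx'
        exact hcomm _ _ (hx x h1 h2 h3).1
      · obtain ⟨h1, h2, h3⟩ := hmem x hx'
        exact hcomm _ _ (hx x h1 h2 h3).2
    have hle : Subgroup.closure (N.simple '' (T : Set S)) ≤
        Subgroup.closure (N.simple '' (T' : Set S)) ⊔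
        Subgroup.closure ({N.simple s, N.simple t} : Set N.Group) := by
      rw [Subgroup.closure_le]
      rintro _ ⟨x, hx', rfl⟩
      by_cases hxs : x = s
      · subst hxs
        exact (le_sup_right : _ ≤ Subgroup.closure (N.simple '' (T' : Set S)) ⊔ _)
          (Subgroup.subset_closure (by simp))
      by_cases hxt : x = t
      · subst hxt
        exact (le_sup_right : _ ≤ Subgroup.closure (N.simple '' (T' : Set S)) ⊔ _)
          (Subgroup.subset_closure (by simp))
      · refine (le_sup_left : _ ≤ Subgroup.closure (N.simple '' (T' : Set S)) ⊔ _)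
          (Subgroup.subset_closure ⟨x, ?_, rfl⟩)
        rw [hT']
        simp only [Finset.coe_erase, Set.mem_sdiff, Set.mem_singleton_iff]
        exact ⟨⟨hx', hxs⟩, hxt⟩
    exact Finite.of_injective _ (Subgroup.inclusion_injective hle)

theorem fc {S : Type*} [Finite S] (N : CoxeterMatrix S)
    (hl : ∀ s t, s ≠ t → N s t = 2 ∨ N s t = 3 ∨ N s t = 0)
    (ho : ∀ s x y, N x s = 3 → N y s = 3 → x = y) (T : Set S)
    (hT : ∀ s ∈ T, ∀ t ∈ T, N s t ≠ 0) : Finite (Subgroup.closure (N.simple '' T)) := by
  classical
  have hTf : T.Finite := Set.toFinite T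
  have h := fc_aux N hl ho _ hTf.toFinset rfl (by simpa using hT)
  rwa [Set.Finite.coe_toFinset] at h

end Pool.Agent.U369.AR
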