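import Pool.Agent.K7.H20.AW.Dih

/-!
# The exponents in a relation with three odd syllables
-/

set_option autoImplicit false
set_option linter.unusedSectionVars false

namespace Pool.Agent.U369.AR

open Pool.Agent.Helper741 Pool.Agent.K7.H87.FJ6 Pool.Agent.K7.H20.AW CoxeterSystem Real

variable {B : Type*} [Fintype B] [DecidableEq B] {M : CoxeterMatrix B}

theorem braid_three : alt (Sm 1) (Tm 1) 3 = alt (Tm 1) (Sm 1) 3 := by
  have h1 : cos (π - ((1 : ℕ) : ℝ) * (π / ((3 : ℕ) : ℝ))) = -(1 / 2) := by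
    have : π - ((1 : ℕ) : ℝ) * (π / ((3 : ℕ) : ℝ)) = π - π / 3 := by push_cast; ring
    rw [this, cos_pi_sub, cos_pi_div_three]
  have h2 := qs_zero_of (m := 3) (j := 1) one_pos (by norm_num)
  rw [h1] at h2
  have h3 := braid2 h2
  have h4 : (-(2 * (-(1 / 2))) : ℝ) = 1 := by norm_num
  rw [h4] at h3
  exact h3

/-- the relation between the exponents -/
theorem three_exp {b t : B} (htb : t ≠ b) (hM : M t b = 3) {a c d : ℤ}
    (h : g M b ^ a * g M t ^ (-d) * g M b ^ c * g M t ^ (-a) * g M b ^ d * g M t ^ (-c) = 1) :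
    a + c + d + a * c * d = 0 := by
  let ι : Bool → B := fun i => if i then t else b
  have hι : Function.Injective ι := by
    intro i j hij
    cases i <;> cases j <;> simp [ι, htb, htb.symm] at hij ⊢
  set x := Sh.gen (pull M ι hι) (z0 B ∘ ι) false with hx
  set y := Sh.gen (pull M ι hι) (z0 B ∘ ι) true with hy
  have h1 : x ^ a * y ^ (-d) * x ^ c * y ^ (-a) * x ^ d * y ^ (-c) = 1 := by
    apply inc_injective (adm0 M) ι hι
    simp only [map_mul, map_zpow, map_one, hx, hy, inc_gen]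
    exact h
  let f : Bool → Matrix.SpecialLinearGroup (Fin 2) ℝ := fun i => if i then Tm 1 else Sm 1
  have hf : ∀ i j, alt (f i) (f j) (pull M ι hι i j) = alt (f j) (f i) (pull M ι hι i j) := by
    intro i j
    cases i <;> cases j
    · rfl
    · have : M b t = 3 := by rw [M.symmetric]; exact hM
      simpa [f, ι, this] using braid_three
    · simpa [f, ι, hM] using braid_three.symm
    · rfl
  have hp : ∀ i, f i ^ (z0 B ∘ ι) i = 1 := fun i => pow_zero _
  have h2 := congrArg (Sh.lift (M := pull M ι hι) (p := z0 B ∘ ι) f hf hp) h1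
  simp only [map_mul, map_zpow, map_one, hx, hy, Sh.lift_gen f hf hp] at h2
  have h3 : Sm 1 ^ a * Tm 1 ^ (-d) * Sm 1 ^ c * Tm 1 ^ (-a) * Sm 1 ^ d * Tm 1 ^ (-c) = 1 := h2
  have h4 : Sm 1 ^ a * Tm 1 ^ (-d) * Sm 1 ^ c = Tm 1 ^ c * Sm 1 ^ (-d) * Tm 1 ^ a := by
    have h5 : Sm 1 ^ a * Tm 1 ^ (-d) * Sm 1 ^ c =
        (Sm 1 ^ a * Tm 1 ^ (-d) * Sm 1 ^ c * Tm 1 ^ (-a) * Sm 1 ^ d * Tm 1 ^ (-c)) *
          (Tm 1 ^ c * Sm 1 ^ (-d) * Tm 1 ^ a) := by group
    rw [h3, one_mul] at h5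
    exact h5
  rw [Sm_zpow, Tm_zpow, Sm_zpow, Tm_zpow, Sm_zpow, Tm_zpow] at h4
  have h5 := congrArg (fun Q : Matrix.SpecialLinearGroup (Fin 2) ℝ =>
    (Q : Matrix (Fin 2) (Fin 2) ℝ) 0 1) h4
  simp only [Matrix.SpecialLinearGroup.coe_mul, Matrix.mul_apply, Fin.sum_univ_two] at h5
  simp [Sm, Tm] at h5
  have h6 : ((a + c + d + a * c * d : ℤ) : ℝ) = 0 := by
    push_cast
    linarith
  exact_mod_cast h6

/-- odd solutions -/
theorem odd_sol {a c d : ℤ} (ha : Odd a) (hc : Odd c) (hd : Odd d)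
    (h : a + c + d + a * c * d = 0) :
    (a = 1 ∨ c = 1 ∨ d = 1) ∧ (a = -1 ∨ c = -1 ∨ d = -1) := by
  have key : ∀ a c d : ℤ, a + c + d + a * c * d = 0 → (a = 1 → c = -1 ∨ d = -1) ∧
      (a = -1 → c = 1 ∨ d = 1) := by
    intro a c d h
    constructor
    · rintro rfl
      have : (c + 1) * (d + 1) = 0 := by linarith
      rcases mul_eq_zero.1 this with h | h
      · left; omega
      · right; omega
    · rintro rfl
      have : (c - 1) * (d - 1) = 0 := by linarith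
      rcases mul_eq_zero.1 this with h | h
      · left; omega
      · right; omega
  have hodd : ∀ a : ℤ, Odd a → a = 1 ∨ a = -1 ∨ 3 ≤ |a| := by
    intro a ha
    rcases ha with ⟨k, rfl⟩
    by_cases h1 : 2 * k + 1 = 1
    · left; exact h1
    · by_cases h2 : 2 * k + 1 = -1
      · right; left; exact h2
      · right; right
        rcases le_or_gt 0 (2 * k + 1) with h3 | h3
        · rw [abs_of_nonneg h3]; omega
        · rw [abs_of_neg h3]; omega
  have kA := key a c d h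
  have kC := key c a d (by linarith)
  have kD := key d a c (by linarith)
  rcases hodd a ha with h1 | h1 | h1
  · rcases kA.1 h1 with h2 | h2
    · exact ⟨Or.inl h1, Or.inr (Or.inl h2)⟩
    · exact ⟨Or.inl h1, Or.inr (Or.inr h2)⟩
  · rcases kA.2 h1 with h2 | h2
    · exact ⟨Or.inr (Or.inl h2), Or.inl h1⟩
    · exact ⟨Or.inr (Or.inr h2), Or.inl h1⟩
  rcases hodd c hc with h2 | h2 | h2
  · rcases kC.1 h2 with h3 | h3
    · exact ⟨Or.inr (Or.inl h2), Or.inl h3⟩
    · exact ⟨Or.inr (Or.inl h2), Or.inr (Or.inr h3)⟩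
  · rcases kC.2 h2 with h3 | h3
    · exact ⟨Or.inl h3, Or.inr (Or.inl h2)⟩
    · exact ⟨Or.inr (Or.inr h3), Or.inr (Or.inl h2)⟩
  rcases hodd d hd with h3 | h3 | h3
  · rcases kD.1 h3 with h4 | h4
    · exact ⟨Or.inr (Or.inr h3), Or.inl h4⟩
    · exact ⟨Or.inr (Or.inr h3), Or.inr (Or.inl h4)⟩
  · rcases kD.2 h3 with h4 | h4
    · exact ⟨Or.inl h4, Or.inr (Or.inr h3)⟩
    · exact ⟨Or.inr (Or.inl h4), Or.inr (Or.inr h3)⟩
  exfalso
  have e1 : |a * c * d| = |a| * |c| * |d| := by rw [abs_mul, abs_mul]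
  have e2 : a * c * d = -(a + c + d) := by linarith
  have e3 : |a * c * d| ≤ |a| + |c| + |d| := by
    rw [e2, abs_neg]
    exact (abs_add_le _ _).trans (add_le_add (abs_add_le _ _) le_rfl)
  rw [e1] at e3
  have h9 : 9 ≤ |a| * |c| := by nlinarith
  have h9' : 9 ≤ |c| * |d| := by nlinarith
  have h9'' : 9 ≤ |a| * |d| := by nlinarith
  nlinarith [mul_le_mul_of_nonneg_right h9 (abs_nonneg d), mul_le_mul_of_nonneg_left h9' (abs_nonneg a),
    mul_le_mul_of_nonneg_right h9'' (abs_nonneg c)]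

end Pool.Agent.U369.AR
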