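import Pool.Agent.U369.AR.Step
import Pool.Agent.K7.H20.AW.Defs

/-!
# All generators with at most three odd syllables
-/

set_option autoImplicit false
set_option linter.unusedSectionVars false

namespace Pool.Agent.U369.AR

open Pool.Agent.Helper741 Pool.Agent.K7.H87.FJ6 Pool.Agent.K7.H20.AW CoxeterSystem

variable {B : Type*} [Fintype B] [DecidableEq B]

/-- the condition on the generator `s` and the label `m` -/
def Lo (w : List (B × ℤ)) (s : B) (m : ℕ) : Prop :=
  (∀ p ∈ w, p.1 = s → Odd p.2) ∧ ct s w ≤ 3 ∧ ¬ (m = 3 ∧ ct s w = 3 ∧ (s, 1) ∈ w ∧ (s, -1) ∈ w)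

open Classical in
/-- the labels of the generators in `L` are replaced -/
noncomputable def rl (M : CoxeterMatrix B) (w : List (B × ℤ)) (L : Finset B) :
    CoxeterMatrix B where
  M := Matrix.of fun i j =>
    if i = j then 1 else if M i j = 2 then 2
    else if (i ∈ L ∧ Lo w i (M i j)) ∨ (j ∈ L ∧ Lo w j (M i j)) then 0 else M i j
  isSymm := by
    ext i j
    simp only [Matrix.transpose_apply, Matrix.of_apply, M.symmetric i j, eq_comm (a := i),
      or_comm (a := i ∈ L ∧ _)]
  diagonal i := by simp
  off_diagonal i j h := by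
    simp only [Matrix.of_apply, if_neg h]
    split_ifs
    · norm_num
    · norm_num
    · exact M.off_diagonal i j h

open Classical in
theorem rl_apply (M : CoxeterMatrix B) (w : List (B × ℤ)) (L : Finset B) (i j : B) :
    rl M w L i j = if i = j then 1 else if M i j = 2 then 2
      else if (i ∈ L ∧ Lo w i (M i j)) ∨ (j ∈ L ∧ Lo w j (M i j)) then 0 else M i j := rfl

theorem rl_main (M : CoxeterMatrix B) (w : List (B × ℤ)) (hw : val M w = 1) (L : Finset B) :
    val (rl M w L) w = 1 := by
  classical
  induction L using Finset.induction_on with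
  | empty =>
    have h : Cutm (rl M w ∅) M := by
      intro i j
      left
      rw [rl_apply]
      by_cases hij : i = j
      · rw [if_pos hij, hij, M.diagonal]
      · rw [if_neg hij]
        by_cases h2 : M i j = 2
        · rw [if_pos h2, h2]
        · rw [if_neg h2, if_neg (by simp)]
    rw [← pj_val h w, hw, map_one]
  | insert b L hb ih =>
    by_cases hgood : (∀ p ∈ w, p.1 = b → Odd p.2) ∧ ct b w ≤ 3
    · refine step (M := rl M w L) (b := b) ?_ ?_ ?_ ?_ hgood.2 hgood.1 ih
      · intro i j
        rw [rl_apply, rl_apply]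
        by_cases hij : i = j
        · left; rw [if_pos hij, if_pos hij]
        rw [if_neg hij, if_neg hij]
        by_cases h2 : M i j = 2
        · left; rw [if_pos h2, if_pos h2]
        rw [if_neg h2, if_neg h2]
        by_cases h3 : (i ∈ insert b L ∧ Lo w i (M i j)) ∨ (j ∈ insert b L ∧ Lo w j (M i j))
        · right; rw [if_pos h3]
        · left
          rw [if_neg h3, if_neg]
          rintro (⟨h4, h5⟩ | ⟨h4, h5⟩)
          · exact h3 (Or.inl ⟨Finset.mem_insert_of_mem h4, h5⟩)
          · exact h3 (Or.inr ⟨Finset.mem_insert_of_mem h4, h5⟩)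
      · intro i hi j hj
        rw [rl_apply, rl_apply]
        simp only [Finset.mem_insert, hi, hj, false_or]
      · intro x hx
        rw [rl_apply] at hx ⊢
        by_cases hij : x = b
        · rw [if_pos hij] at hx; norm_num at hx
        rw [if_neg hij] at hx ⊢
        by_cases h2 : M x b = 2
        · rw [if_pos h2]
        · exfalso
          rw [if_neg h2] at hx
          split_ifs at hx
          exact h2 hx
      · intro hc3 h1 h1' x hx
        rw [rl_apply] at hx ⊢
        by_cases hij : x = b
        · rw [if_pos hij] at hx; norm_num at hx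
        rw [if_neg hij] at hx ⊢
        by_cases h2 : M x b = 2
        · rw [if_pos h2] at hx; norm_num at hx
        rw [if_neg h2] at hx ⊢
        by_cases h3 : (x ∈ L ∧ Lo w x (M x b)) ∨ (b ∈ L ∧ Lo w b (M x b))
        · rw [if_pos h3] at hx; norm_num at hx
        rw [if_neg h3] at hx
        rw [if_neg]
        · exact hx
        · rintro (⟨h4, h5⟩ | ⟨h4, h5⟩)
          · rcases Finset.mem_insert.1 h4 with h6 | h6
            · exact hij h6
            · exact h3 (Or.inl ⟨h6, h5⟩)
          · exact h5.2.2 ⟨hx, hc3, h1, h1'⟩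
    · have h : Cutm (rl M w (insert b L)) (rl M w L) := by
        intro i j
        left
        rw [rl_apply, rl_apply]
        have e : ∀ m : ℕ, ∀ i : B, (i ∈ insert b L ∧ Lo w i m) ↔ (i ∈ L ∧ Lo w i m) := by
          intro m i
          constructor
          · rintro ⟨h1, h2⟩
            rcases Finset.mem_insert.1 h1 with rfl | h1
            · exact absurd ⟨h2.1, h2.2.1⟩ hgood
            · exact ⟨h1, h2⟩
          · rintro ⟨h1, h2⟩
            exact ⟨Finset.mem_insert_of_mem h1, h2⟩
        simp only [e]
      rw [← pj_val h w, ih, map_one]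

/-- the equivalence -/
theorem rl_iff (M : CoxeterMatrix B) (w : List (B × ℤ)) (L : Finset B) :
    val M w = 1 ↔ val (rl M w L) w = 1 := by
  classical
  refine ⟨fun h => rl_main M w h L, fun h => ?_⟩
  have hc : Cutm M (rl M w L) := by
    intro i j
    rw [rl_apply]
    by_cases hij : i = j
    · left; rw [if_pos hij, hij, M.diagonal]
    rw [if_neg hij]
    by_cases h2 : M i j = 2
    · left; rw [if_pos h2, h2]
    rw [if_neg h2]
    split_ifs
    · right; rfl
    · left; rfl
  rw [← pj_val hc w, h, map_one]

theorem val_congr {M N : CoxeterMatrix B} (h : ∀ i j, M i j = N i j) (w : List (B × ℤ)) :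
    val M w = 1 ↔ val N w = 1 := by
  have h1 : Cutm M N := fun i j => Or.inl (h i j).symm
  have h2 : Cutm N M := fun i j => Or.inl (h i j)
  constructor
  · intro hw
    rw [← pj_val h2 w, hw, map_one]
  · intro hw
    rw [← pj_val h1 w, hw, map_one]

end Pool.Agent.U369.AR
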