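import Pool.Agent.U369.AR.StepEx

/-!
# All generators have at most three odd syllables
-/

set_option autoImplicit false
set_option linter.unusedSectionVars false

namespace Pool.Agent.U369.AR

open Pool.Agent.Helper741 Pool.Agent.K7.H87.FJ6 Pool.Agent.K7.H20.AW CoxeterSystem

variable {B : Type*} [Fintype B] [DecidableEq B]

open Classical in
/-- the labels between `b` and the elements of `D` are replaced by infinity -/
noncomputable def cutM (M : CoxeterMatrix B) (b : B) (D : Set B) : CoxeterMatrix B where
  M := Matrix.of fun i j =>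
    if i = j then 1 else if (i = b ∧ j ∈ D) ∨ (j = b ∧ i ∈ D) then 0 else M i j
  isSymm := by
    ext i j
    simp only [Matrix.transpose_apply, Matrix.of_apply, M.symmetric i j, eq_comm (a := i) (b := j),
      or_comm (a := i = b ∧ _)]
  diagonal i := by simp
  off_diagonal i j h := by
    simp only [Matrix.of_apply, if_neg h]
    split_ifs
    · norm_num
    · exact M.off_diagonal i j h

open Classical in
theorem cutM_apply (M : CoxeterMatrix B) (b : B) (D : Set B) (i j : B) :
    cutM M b D i j = if i = j then 1 else if (i = b ∧ j ∈ D) ∨ (j = b ∧ i ∈ D) then 0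
      else M i j := rfl

theorem cutM_cut (M : CoxeterMatrix B) (b : B) (D : Set B) : Cutm M (cutM M b D) := by
  intro i j
  rw [cutM_apply]
  by_cases hij : i = j
  · left; rw [if_pos hij, hij, M.diagonal]
  rw [if_neg hij]
  split_ifs
  · right; rfl
  · left; rfl

theorem cutM_off (M : CoxeterMatrix B) (b : B) (D : Set B) {i j : B} (hi : i ≠ b) (hj : j ≠ b) :
    cutM M b D i j = M i j := by
  rw [cutM_apply]
  by_cases hij : i = j
  · rw [if_pos hij, hij, M.diagonal]
  rw [if_neg hij, if_neg]
  rintro (⟨h, _⟩ | ⟨h, _⟩)
  · exact hi h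
  · exact hj h

theorem cutM_in (M : CoxeterMatrix B) (b : B) (D : Set B) {x : B} (hx : x ≠ b) (hD : x ∈ D) :
    cutM M b D x b = 0 := by
  rw [cutM_apply, if_neg hx, if_pos (Or.inr ⟨rfl, hD⟩)]

theorem cutM_out (M : CoxeterMatrix B) (b : B) (D : Set B) {x : B} (hD : x ∉ D) :
    cutM M b D x b = M x b := by
  rw [cutM_apply]
  by_cases hx : x = b
  · rw [if_pos hx, hx, M.diagonal]
  rw [if_neg hx, if_neg]
  rintro (⟨h, _⟩ | ⟨_, h⟩)
  · exact hx h
  · exact hD h

/-- the labels of the generators in `L` are reduced -/
structure Good (M N : CoxeterMatrix B) (w : List (B × ℤ)) (L : Finset B) : Prop where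
  cut : Cutm M N
  two : ∀ i j, M i j = 2 → N i j = 2
  lab : ∀ s ∈ L, ∀ x, x ≠ s → N x s = 2 ∨ N x s = 3 ∨ N x s = 0
  one : ∀ s ∈ L, ∀ x y, N x s = 3 → N y s = 3 → x = y
  three : ∀ s ∈ L, ∀ x, N x s = 3 → ct s w = 3 ∧ (s, 1) ∈ w ∧ (s, -1) ∈ w
  triv : val N w = 1

theorem Good.step {M N N' : CoxeterMatrix B} {w : List (B × ℤ)} {L : Finset B} {b : B}
    (h : Good M N w L) (hN : Cutm N N') (h2 : ∀ i j, N i j = 2 → N' i j = 2)
    (hlab : ∀ x, x ≠ b → N' x b = 2 ∨ N' x b = 3 ∨ N' x b = 0)
    (hone : ∀ x y, N' x b = 3 → N' y b = 3 → x = y)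
    (hthree : ∀ x, N' x b = 3 → ct b w = 3 ∧ (b, 1) ∈ w ∧ (b, -1) ∈ w)
    (hv : val N' w = 1) : Good M N' w (insert b L) where
  cut := by
    intro i j
    rcases hN i j with h1 | h1
    · rw [h1]; exact h.cut i j
    · right; exact h1
  two i j hij := h2 i j (h.two i j hij)
  lab := by
    intro s hs x hx
    rcases Finset.mem_insert.1 hs with rfl | hs
    · exact hlab x hx
    · rcases hN x s with h1 | h1
      · rw [h1]; exact h.lab s hs x hx
      · right; right; exact h1
  one := by
    intro s hs x y hx hy
    rcases Finset.mem_insert.1 hs with rfl | hs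
    · exact hone x y hx hy
    · rcases hN x s with h1 | h1
      · rcases hN y s with h3 | h3
        · exact h.one s hs x y (h1 ▸ hx) (h3 ▸ hy)
        · rw [h3] at hy; norm_num at hy
      · rw [h1] at hx; norm_num at hx
  three := by
    intro s hs x hx
    rcases Finset.mem_insert.1 hs with rfl | hs
    · exact hthree x hx
    · rcases hN x s with h1 | h1
      · exact h.three s hs x (h1 ▸ hx)
      · rw [h1] at hx; norm_num at hx
  triv := hv

theorem ex_good (M : CoxeterMatrix B) (w : List (B × ℤ))
    (hf : ∀ s, (∀ p ∈ w, p.1 = s → Odd p.2) ∧ ct s w ≤ 3) (hw : val M w = 1) (L : Finset B) :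
    ∃ N, Good M N w L := by
  classical
  induction L using Finset.induction_on with
  | empty =>
    exact ⟨M, fun _ _ => Or.inl rfl, fun _ _ h => h, fun s hs => absurd hs (by simp),
      fun s hs => absurd hs (by simp), fun s hs => absurd hs (by simp), hw⟩
  | insert b L hb ih =>
    obtain ⟨N, hN⟩ := ih
    by_cases hc : ct b w = 3
    · obtain ⟨t, htb, ht3, h1, h1', hall⟩ := step_ex hc (hf b).1 hN.triv
      set D : Set B := {x | N x b ≠ 2 ∧ x ≠ t} with hD
      have htD : t ∉ D := fun h => h.2 rfl
      have k2 : ∀ x, N x b = 2 → cutM N b D x b = 2 := by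
        intro x hx
        rw [cutM_out N b D (fun h => h.1 hx), hx]
      have kt : cutM N b D t b = 3 := by rw [cutM_out N b D htD, ht3]
      have kx : ∀ x, x ≠ b → cutM N b D x b = 2 ∨ (x = t ∧ cutM N b D x b = 3) ∨
          cutM N b D x b = 0 := by
        intro x hx
        by_cases h2 : N x b = 2
        · left; exact k2 x h2
        by_cases hxt : x = t
        · right; left; exact ⟨hxt, by rw [hxt]; exact kt⟩
        · right; right
          exact cutM_in N b D hx ⟨h2, hxt⟩
      have k3 : ∀ x, cutM N b D x b = 3 → x = t := by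
        intro x hx
        have hxb : x ≠ b := by
          rintro rfl
          rw [(cutM N x D).diagonal] at hx
          norm_num at hx
        rcases kx x hxb with h | h | h
        · rw [h] at hx; norm_num at hx
        · exact h.1
        · rw [h] at hx; norm_num at hx
      refine ⟨cutM N b D, hN.step (cutM_cut N b D) ?_ ?_ ?_ ?_ ?_⟩
      · intro i j hij
        by_cases hj : j = b
        · subst hj; exact k2 i hij
        by_cases hi : i = b
        · subst hi
          rw [(cutM N i D).symmetric]
          exact k2 j (by rw [N.symmetric]; exact hij)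
        · rw [cutM_off N b D hi hj]; exact hij
      · intro x hx
        rcases kx x hx with h | h | h
        · left; exact h
        · right; left; exact h.2
        · right; right; exact h
      · intro x y hx hy
        rw [k3 x hx, k3 y hy]
      · intro x _
        exact ⟨hc, h1, h1'⟩
      · exact hall _ (cutM_cut N b D) (fun i hi j hj => cutM_off N b D hi hj) k2 kt
    · set D : Set B := {x | N x b ≠ 2} with hD
      have k2 : ∀ x, N x b = 2 → cutM N b D x b = 2 := by
        intro x hx
        rw [cutM_out N b D (fun h => h hx), hx]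
      have kx : ∀ x, x ≠ b → cutM N b D x b = 2 ∨ cutM N b D x b = 0 := by
        intro x hx
        by_cases h2 : N x b = 2
        · left; exact k2 x h2
        · right; exact cutM_in N b D hx h2
      have k3 : ∀ x, cutM N b D x b ≠ 3 := by
        intro x hx
        have hxb : x ≠ b := by
          rintro rfl
          rw [(cutM N x D).diagonal] at hx
          norm_num at hx
        rcases kx x hxb with h | h <;> rw [h] at hx <;> norm_num at hx
      refine ⟨cutM N b D, hN.step (cutM_cut N b D) ?_ ?_ ?_ ?_ ?_⟩
      · intro i j hij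
        by_cases hj : j = b
        · subst hj; exact k2 i hij
        by_cases hi : i = b
        · subst hi
          rw [(cutM N i D).symmetric]
          exact k2 j (by rw [N.symmetric]; exact hij)
        · rw [cutM_off N b D hi hj]; exact hij
      · intro x hx
        rcases kx x hx with h | h
        · left; exact h
        · right; right; exact h
      · intro x y hx _
        exact absurd hx (k3 x)
      · intro x hx
        exact absurd hx (k3 x)
      · exact step (cutM_cut N b D) (fun i hi j hj => cutM_off N b D hi hj) k2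
          (fun h => absurd h hc) (hf b).2 (hf b).1 hN.triv

end Pool.Agent.U369.AR
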