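import Pool.Agent.U369.AR.Struct
import Pool.Agent.U369.AR.Expo
import Pool.Agent.K7.H20.AW.DecFin

/-!
# Replacing labels of a generator with at most three odd syllables by infinity
-/

set_option autoImplicit false
set_option linter.unusedSectionVars false

namespace Pool.Agent.U369.AR

open Pool.Agent.Helper741 Pool.Agent.K7.H87.FJ6 Pool.Agent.K7.H20.AW CoxeterSystem

section basic

variable {B : Type*} {M N : CoxeterMatrix B}

/-- `N` arises from `M` when some labels are replaced by infinity -/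
def Cutm (M N : CoxeterMatrix B) : Prop := ∀ i j, N i j = M i j ∨ N i j = 0

/-- the projection -/
def pj (h : Cutm M N) : Art N →* Art M :=
  Sh.lift (fun b => g M b) (fun i j => by
    rcases h i j with h | h
    · rw [h]; exact Sh.rel i j
    · rw [h, alt_zero, alt_zero]) (fun _ => pow_zero _)

theorem pj_g (h : Cutm M N) (b : B) : pj h (g N b) = g M b := Sh.lift_gen _ _ _ _

theorem pj_val (h : Cutm M N) (w : List (B × ℤ)) : pj h (val N w) = val M w := by
  induction w with
  | nil => exact map_one _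
  | cons p w ih => rw [val_cons, val_cons, map_mul, ih, map_zpow, pj_g]

theorem pj_surj (h : Cutm M N) {V : Set B} {x : Art M} (hx : x ∈ P M V) :
    ∃ x' ∈ P N V, pj h x' = x := by
  induction hx using Subgroup.closure_induction with
  | mem x hx =>
    obtain ⟨b, hb, rfl⟩ := hx
    exact ⟨g _ b, g_mem hb, pj_g h b⟩
  | one => exact ⟨1, one_mem _, map_one _⟩
  | mul x y _ _ hx hy =>
    obtain ⟨u, hu, rfl⟩ := hx
    obtain ⟨v, hv, rfl⟩ := hy
    exact ⟨u * v, mul_mem hu hv, map_mul _ _ _⟩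
  | inv x _ hx =>
    obtain ⟨u, hu, rfl⟩ := hx
    exact ⟨u⁻¹, inv_mem hu, map_inv _ _⟩

/-- the subgroup of `Y` is the same in the two groups if the labels in `Y` are -/
theorem pj_mem [Finite B] (h : Cutm M N) {Y : Set B} (hY : ∀ i ∈ Y, ∀ j ∈ Y, N i j = M i j)
    {V : Set B} (hV : V ⊆ Y) {z : Art N} (hz : z ∈ P N Y) (hq : pj h z ∈ P M V) : z ∈ P N V := by
  let ι : {y : B // y ∈ Y} → B := Subtype.val
  have hι : Function.Injective ι := Subtype.val_injective
  let J : Sh (pull M ι hι) (z0 B ∘ ι) →* Art N :=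
    Sh.lift (fun x => g N (ι x)) (fun i j => by
      have h := Sh.rel (M := N) (p := z0 B) (ι i) (ι j)
      rw [hY _ i.2 _ j.2] at h
      exact h) (fun _ => pow_zero _)
  have hJ : ∀ x, J (Sh.gen _ _ x) = g N (ι x) := fun x => Sh.lift_gen _ _ _ _
  have hqJ : ∀ a, pj h (J a) = inc M (z0 B) ι hι a := by
    intro a
    induction a using Sh.induction with
    | one => rw [map_one, map_one, map_one]
    | gen x => rw [hJ, pj_g, inc_gen]
    | mul x y hx hy => rw [map_mul, map_mul, map_mul, hx, hy]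
    | inv x hx => rw [map_inv, map_inv, map_inv, hx]
  have hex : ∀ z ∈ P N Y, ∃ z', J z' = z := by
    intro z hz
    induction hz using Subgroup.closure_induction with
    | mem x hx =>
      obtain ⟨b, hb, rfl⟩ := hx
      exact ⟨Sh.gen _ _ ⟨b, hb⟩, hJ _⟩
    | one => exact ⟨1, map_one _⟩
    | mul x y _ _ hx hy =>
      obtain ⟨a, rfl⟩ := hx
      obtain ⟨b, rfl⟩ := hy
      exact ⟨a * b, map_mul _ _ _⟩
    | inv x _ hx =>
      obtain ⟨a, rfl⟩ := hx
      exact ⟨a⁻¹, map_inv _ _⟩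
  obtain ⟨z', rfl⟩ := hex z hz
  rw [hqJ] at hq
  have hex2 : ∀ t ∈ P M V, ∃ c ∈ Subgroup.closure (Sh.gen (pull M ι hι) (z0 B ∘ ι) ''
      {x | ι x ∈ V}), inc M (z0 B) ι hι c = t := by
    intro t ht
    induction ht using Subgroup.closure_induction with
    | mem x hx =>
      obtain ⟨b, hb, rfl⟩ := hx
      exact ⟨Sh.gen _ _ ⟨b, hV hb⟩, Subgroup.subset_closure ⟨⟨b, hV hb⟩, hb, rfl⟩,
        inc_gen _ _ _ _ _⟩
    | one => exact ⟨1, one_mem _, map_one _⟩
    | mul x y _ _ hx hy =>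
      obtain ⟨a, ha, rfl⟩ := hx
      obtain ⟨b, hb, rfl⟩ := hy
      exact ⟨a * b, mul_mem ha hb, map_mul _ _ _⟩
    | inv x _ hx =>
      obtain ⟨a, ha, rfl⟩ := hx
      exact ⟨a⁻¹, inv_mem ha, map_inv _ _⟩
  obtain ⟨c, hc, hc'⟩ := hex2 _ hq
  rw [← inc_injective (adm0 M) ι hι hc']
  clear hc' hq hz
  induction hc using Subgroup.closure_induction with
  | mem x hx =>
    obtain ⟨b, hb, rfl⟩ := hx
    rw [hJ]
    exact g_mem hb
  | one => rw [map_one]; exact one_mem _
  | mul x y _ _ hx hy => rw [map_mul]; exact mul_mem hx hy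
  | inv x _ hx => rw [map_inv]; exact inv_mem hx

theorem P_empty' {M : CoxeterMatrix B} {x : Art M} (h : x ∈ P M ∅) : x = 1 := by
  rw [P, Set.image_empty, Subgroup.closure_empty] at h
  exact Subgroup.mem_bot.1 h

theorem pj_inj [Finite B] (h : Cutm M N) {Y : Set B} (hY : ∀ i ∈ Y, ∀ j ∈ Y, N i j = M i j)
    {x y : Art N} (hx : x ∈ P N Y) (hy : y ∈ P N Y) (he : pj h x = pj h y) : x = y := by
  have h1 : x * y⁻¹ ∈ P N ∅ := by
    refine pj_mem h hY (Set.empty_subset _) (mul_mem hx (inv_mem hy)) ?_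
    rw [map_mul, map_inv, he, mul_inv_cancel]
    exact one_mem _
  exact mul_inv_eq_one.1 (P_empty' h1)

end basic

section step

variable {B : Type*} [Fintype B] [DecidableEq B] {M N : CoxeterMatrix B}

/-- one generator with at most three odd syllables -/
theorem step (h : Cutm M N) {b : B} (hoff : ∀ i, i ≠ b → ∀ j, j ≠ b → N i j = M i j)
    (h2 : ∀ x, M x b = 2 → N x b = 2) {w : List (B × ℤ)}
    (h3 : ct b w = 3 → (b, 1) ∈ w → (b, -1) ∈ w → ∀ x, M x b = 3 → N x b = 3)
    (hc : ct b w ≤ 3) (ho : ∀ a ∈ w, a.1 = b → Odd a.2) (hw : val M w = 1) : val N w = 1 := by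
  have hY : ∀ i ∈ ({b}ᶜ : Set B), ∀ j ∈ ({b}ᶜ : Set B), N i j = M i j := fun i hi j hj =>
    hoff i (by simpa using hi) j (by simpa using hj)
  have hcomm : ∀ {x : Art N}, x ∈ P N (lnk M b) → ∀ k : ℤ, g N b ^ k * x = x * g N b ^ k := by
    intro x hx k
    refine comm_P (P_mono ?_ hx) k
    rintro u ⟨hu1, hu2⟩
    exact ⟨hu1, h2 u hu2⟩
  have hv : ∀ {u : List (B × ℤ)}, ct b u = 0 → val N u ∈ P N ({b}ᶜ : Set B) := fun hu =>
    val_mem (ct_eq_zero hu)
  have hvM : ∀ {u : List (B × ℤ)}, ct b u = 0 → val M u ∈ P M ({b}ᶜ : Set B) := fun hu =>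
    val_mem (ct_eq_zero hu)
  rcases Nat.eq_zero_or_pos (ct b w) with h0 | h0
  · refine pj_inj h hY (hv h0) (one_mem _) ?_
    rw [pj_val, hw, map_one]
  obtain ⟨u, a, v, rfl, hu, hv1⟩ := ct_split h0
  have hoa : Odd a := ho (b, a) (by simp) rfl
  rcases Nat.eq_zero_or_pos (ct b v) with h0' | h0'
  · exfalso
    refine once_false (M := M) (t := b) (hvM hu) (hvM h0') hoa ?_
    rw [← hw, val_append, val_cons, mul_assoc]
  obtain ⟨y, c, z, rfl, hy, hz1⟩ := ct_split h0'
  have hoc : Odd c := ho (b, c) (by simp) rfl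
  rcases Nat.eq_zero_or_pos (ct b z) with hz0 | hz0
  · -- two syllables
    have e : g M b ^ a * val M y * g M b ^ c = (val M z * val M u)⁻¹ := by
      rw [eq_inv_iff_mul_eq_one]
      have h1 := congrArg (fun t => (val M u)⁻¹ * t * val M u) hw
      simp only [val_append, val_cons] at h1
      rw [mul_one, inv_mul_cancel] at h1
      rw [← h1]
      group
    rcases two (hvM hy) (inv_mem (mul_mem (hvM hz0) (hvM hu))) e with ⟨_, _, hyL⟩ | ⟨h', _, _⟩
    · have hac : g M b ^ (a + c) ∈ P M ({b}ᶜ : Set B) := by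
        have h5 : g M b ^ (a + c) = (val M y)⁻¹ * (val M z * val M u)⁻¹ := by
          rw [← e, comm_P hyL a, zpow_add]
          group
        rw [h5]
        exact mul_mem (inv_mem (hvM hy)) (inv_mem (mul_mem (hvM hz0) (hvM hu)))
      have hac0 := Pool.Agent.K7.H20.AW.pow_mem hac
      have hcc : c = -a := by omega
      subst hcc
      have e' : val M y = (val M z * val M u)⁻¹ := by
        rw [← e, comm_P hyL a]
        group
      have hyN : val N y ∈ P N (lnk M b) := by
        refine pj_mem h hY lnk_sub_self (hv hy) ?_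
        rw [pj_val]
        exact hyL
      have hrest : val N u * val N y * val N z = 1 := by
        refine pj_inj h hY (mul_mem (mul_mem (hv hu) (hv hy)) (hv hz0)) (one_mem _) ?_
        rw [map_mul, map_mul, pj_val, pj_val, pj_val, map_one, e']
        group
      rw [val_append, val_cons, val_append, val_cons]
      show val N u * (g N b ^ a * (val N y * (g N b ^ (-a) * val N z))) = 1
      calc val N u * (g N b ^ a * (val N y * (g N b ^ (-a) * val N z)))
          = val N u * ((g N b ^ a * val N y) * (g N b ^ (-a) * val N z)) := by group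
        _ = val N u * ((val N y * g N b ^ a) * (g N b ^ (-a) * val N z)) := by rw [hcomm hyN a]
        _ = val N u * val N y * val N z := by group
        _ = 1 := hrest
    · exact absurd hoa (Int.not_odd_iff_even.2 h')
  -- three syllables
  obtain ⟨z', d, v', rfl, hz', hv'⟩ := ct_split hz0
  have hod : Odd d := ho (b, d) (by simp) rfl
  have hv0 : ct b v' = 0 := by omega
  have hc3 : ct b (u ++ (b, a) :: (y ++ (b, c) :: (z' ++ (b, d) :: v'))) = 3 := by
    omega
  have e : g M b ^ a * val M y * g M b ^ c * val M z' * g M b ^ d * (val M v' * val M u) = 1 := by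
    have h1 := congrArg (fun t => (val M u)⁻¹ * t * val M u) hw
    simp only [val_append, val_cons] at h1
    rw [mul_one, inv_mul_cancel] at h1
    rw [← h1]
    group
  obtain ⟨t, htb, hMt, α1, hα1, β1, hβ1, α2, hα2, β2, hβ2, α3, hα3, β3, hβ3, E1, E2, E3,
    m1, m2, m3, hX, hγ⟩ := three_struct (hvM hy) (hvM hz') (mul_mem (hvM hv0) (hvM hu))
      hoa hoc hod e
  obtain ⟨hs1, hs2⟩ := odd_sol hoa hoc hod (three_exp htb hMt hX)
  have hNt : N t b = 3 := by
    refine h3 hc3 ?_ ?_ t hMt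
    · rcases hs1 with rfl | rfl | rfl <;> simp
    · rcases hs2 with rfl | rfl | rfl <;> simp
  have htY : ∀ k : ℤ, g N t ^ k ∈ P N ({b}ᶜ : Set B) := fun k =>
    zpow_mem (g_mem (by simpa using htb)) k
  obtain ⟨α1', hα1', rfl⟩ := pj_surj h hα1
  obtain ⟨β1', hβ1', rfl⟩ := pj_surj h hβ1
  obtain ⟨α2', hα2', rfl⟩ := pj_surj h hα2
  obtain ⟨β2', hβ2', rfl⟩ := pj_surj h hβ2
  obtain ⟨α3', hα3', rfl⟩ := pj_surj h hα3
  obtain ⟨β3', hβ3', rfl⟩ := pj_surj h hβ3
  have hb : ∀ {x : Art N}, x ∈ P N (lnk M b) → x ∈ P N ({b}ᶜ : Set B) := fun hx =>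
    P_mono lnk_sub_self hx
  have F1 : val N y = α1' * g N t ^ (-d) * β1' := by
    refine pj_inj h hY (hv hy) (mul_mem (mul_mem (hb hα1') (htY _)) (hb hβ1')) ?_
    rw [pj_val, E1, map_mul, map_mul, map_zpow, pj_g]
  have F2 : val N z' = α2' * g N t ^ (-a) * β2' := by
    refine pj_inj h hY (hv hz') (mul_mem (mul_mem (hb hα2') (htY _)) (hb hβ2')) ?_
    rw [pj_val, E2, map_mul, map_mul, map_zpow, pj_g]
  have F3 : val N v' * val N u = α3' * g N t ^ (-c) * β3' := by
    refine pj_inj h hY (mul_mem (hv hv0) (hv hu))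
      (mul_mem (mul_mem (hb hα3') (htY _)) (hb hβ3')) ?_
    rw [map_mul, pj_val, pj_val, E3, map_mul, map_mul, map_zpow, pj_g]
  have hsub : lnk M b ∩ lnk M t ⊆ ({b}ᶜ : Set B) := fun x hx => lnk_sub_self hx.1
  have n1 : β1' * α2' ∈ P N (lnk M b ∩ lnk M t) := by
    refine pj_mem h hY hsub (mul_mem (hb hβ1') (hb hα2')) ?_
    rw [map_mul]; exact m1
  have n2 : β2' * α3' ∈ P N (lnk M b ∩ lnk M t) := by
    refine pj_mem h hY hsub (mul_mem (hb hβ2') (hb hα3')) ?_
    rw [map_mul]; exact m2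
  have n3 : β3' * α1' ∈ P N (lnk M b ∩ lnk M t) := by
    refine pj_mem h hY hsub (mul_mem (hb hβ3') (hb hα1')) ?_
    rw [map_mul]; exact m3
  have hγ' : (β1' * α2') * (β2' * α3') * (β3' * α1') = 1 := by
    refine pj_inj h hY (P_mono hsub (mul_mem (mul_mem n1 n2) n3)) (one_mem _) ?_
    simp only [map_mul, map_one]
    exact hγ
  have hX' : g N b ^ a * g N t ^ (-d) * g N b ^ c * g N t ^ (-a) * g N b ^ d * g N t ^ (-c) =
      1 := by
    have q1 : ∀ k : ℤ, g N b ^ k ∈ P N ({b, t} : Set B) := fun k => zpow_mem (g_mem (by simp)) k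
    have q2 : ∀ k : ℤ, g N t ^ k ∈ P N ({b, t} : Set B) := fun k => zpow_mem (g_mem (by simp)) k
    refine pj_inj h (Y := ({b, t} : Set B)) ?_ (mul_mem (mul_mem (mul_mem (mul_mem (mul_mem
      (q1 _) (q2 _)) (q1 _)) (q2 _)) (q1 _)) (q2 _)) (one_mem _) ?_
    · rintro i (rfl | rfl) j (rfl | rfl)
      · rw [N.diagonal, M.diagonal]
      · rw [N.symmetric, M.symmetric, hNt, hMt]
      · rw [hNt, hMt]
      · rw [N.diagonal, M.diagonal]
    · simp only [map_mul, map_zpow, map_one, pj_g]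
      exact hX
  -- the commutations with `t`
  have hcommt : ∀ {x : Art N}, x ∈ P N (lnk M b ∩ lnk M t) → ∀ k : ℤ,
      x * g N t ^ k = g N t ^ k * x := by
    intro x hx k
    symm
    refine comm_P (P_mono ?_ hx) k
    rintro u ⟨⟨hu1, _⟩, hu2, hu3⟩
    refine ⟨hu2, ?_⟩
    rw [hoff u hu1 t htb]
    exact hu3
  have hcommb : ∀ {x : Art N}, x ∈ P N (lnk M b ∩ lnk M t) → ∀ k : ℤ,
      x * g N b ^ k = g N b ^ k * x := fun hx k =>
    (hcomm (P_mono Set.inter_subset_left hx) k).symm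
  have c1 := hcomm hα1' a
  have c2 := hcomm hα2' c
  have c3 := hcomm hα3' d
  have n12 := mul_mem n1 n2
  have efin : g N b ^ a * val N y * g N b ^ c * val N z' * g N b ^ d * (val N v' * val N u) =
      1 := by
    rw [F1, F2, F3]
    calc g N b ^ a * (α1' * g N t ^ (-d) * β1') * g N b ^ c * (α2' * g N t ^ (-a) * β2') *
          g N b ^ d * (α3' * g N t ^ (-c) * β3')
        = (g N b ^ a * α1') * g N t ^ (-d) * β1' * (g N b ^ c * α2') * g N t ^ (-a) * β2' *
          (g N b ^ d * α3') * g N t ^ (-c) * β3' := by group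
      _ = (α1' * g N b ^ a) * g N t ^ (-d) * β1' * (α2' * g N b ^ c) * g N t ^ (-a) * β2' *
          (α3' * g N b ^ d) * g N t ^ (-c) * β3' := by rw [c1, c2, c3]
      _ = α1' * g N b ^ a * g N t ^ (-d) * ((β1' * α2') * g N b ^ c) * g N t ^ (-a) *
          (β2' * α3') * g N b ^ d * g N t ^ (-c) * (β3' * α1') * α1'⁻¹ := by group
      _ = α1' * g N b ^ a * g N t ^ (-d) * g N b ^ c * ((β1' * α2') * g N t ^ (-a)) *
          (β2' * α3') * g N b ^ d * g N t ^ (-c) * (β3' * α1') * α1'⁻¹ := by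
            rw [hcommb n1]; group
      _ = α1' * g N b ^ a * g N t ^ (-d) * g N b ^ c * g N t ^ (-a) * (((β1' * α2') *
          (β2' * α3')) * g N b ^ d) * g N t ^ (-c) * (β3' * α1') * α1'⁻¹ := by
            rw [hcommt n1]; group
      _ = α1' * g N b ^ a * g N t ^ (-d) * g N b ^ c * g N t ^ (-a) * g N b ^ d *
          (((β1' * α2') * (β2' * α3')) * g N t ^ (-c)) * (β3' * α1') * α1'⁻¹ := by
            rw [hcommb n12]; group
      _ = α1' * (g N b ^ a * g N t ^ (-d) * g N b ^ c * g N t ^ (-a) * g N b ^ d *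
          g N t ^ (-c)) * ((β1' * α2') * (β2' * α3') * (β3' * α1')) * α1'⁻¹ := by
            rw [hcommt n12]; group
      _ = 1 := by rw [hX', hγ']; group
  have h1 := congrArg (fun t => val N u * t * (val N u)⁻¹) efin
  rw [val_append, val_cons, val_append, val_cons, val_append, val_cons]
  show val N u * (g N b ^ a * (val N y * (g N b ^ c * (val N z' * (g N b ^ d * val N v'))))) = 1
  simp only [mul_one, mul_inv_cancel] at h1
  rw [← h1]
  group

end step

end Pool.Agent.U369.AR
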