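import Pool.Agent.U369.AR.Step

/-!
# A generator with three odd syllables needs only one label three
-/

set_option autoImplicit false
set_option linter.unusedSectionVars false

namespace Pool.Agent.U369.AR

open Pool.Agent.Helper741 Pool.Agent.K7.H87.FJ6 Pool.Agent.K7.H20.AW CoxeterSystem

section step

variable {B : Type*} [Fintype B] [DecidableEq B] {M : CoxeterMatrix B}

/-- one generator with exactly three odd syllables: the labels but one can be cut -/
theorem step_ex {b : B} {w : List (B × ℤ)} (hc : ct b w = 3)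
    (ho : ∀ a ∈ w, a.1 = b → Odd a.2) (hw : val M w = 1) :
    ∃ t, t ≠ b ∧ M t b = 3 ∧ (b, 1) ∈ w ∧ (b, -1) ∈ w ∧
      ∀ N : CoxeterMatrix B, Cutm M N → (∀ i, i ≠ b → ∀ j, j ≠ b → N i j = M i j) →
        (∀ x, M x b = 2 → N x b = 2) → N t b = 3 → val N w = 1 := by
  have hvM : ∀ {u : List (B × ℤ)}, ct b u = 0 → val M u ∈ P M ({b}ᶜ : Set B) := fun hu =>
    val_mem (ct_eq_zero hu)
  obtain ⟨u, a, v, rfl, hu, hv1⟩ := ct_split (b := b) (w := w) (by omega)
  have hoa : Odd a := ho (b, a) (by simp) rfl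
  obtain ⟨y, c, z, rfl, hy, hz1⟩ := ct_split (b := b) (w := v) (by omega)
  have hoc : Odd c := ho (b, c) (by simp) rfl
  -- three syllables
  obtain ⟨z', d, v', rfl, hz', hv'⟩ := ct_split (b := b) (w := z) (by omega)
  have hod : Odd d := ho (b, d) (by simp) rfl
  have hv0 : ct b v' = 0 := by omega
  have e : g M b ^ a * val M y * g M b ^ c * val M z' * g M b ^ d * (val M v' * val M u) = 1 := by
    have h1 := congrArg (fun t => (val M u)⁻¹ * t * val M u) hw
    simp only [val_append, val_cons] at h1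
    rw [mul_one, inv_mul_cancel] at h1
    rw [← h1]
    group
  obtain ⟨t, htb, hMt, α1, hα1, β1, hβ1, α2, hα2, β2, hβ2, α3, hα3, β3, hβ3, E1, E2, E3,
    m1, m2, m3, hX, hγ⟩ := three_struct (hvM hy) (hvM hz') (mul_mem (hvM hv0) (hvM hu))
      hoa hoc hod e
  obtain ⟨hs1, hs2⟩ := odd_sol hoa hoc hod (three_exp htb hMt hX)
  refine ⟨t, htb, hMt, ?_, ?_, ?_⟩
  · rcases hs1 with rfl | rfl | rfl <;> simp
  · rcases hs2 with rfl | rfl | rfl <;> simp
  intro N h hoff h2 hNt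
  have hY : ∀ i ∈ ({b}ᶜ : Set B), ∀ j ∈ ({b}ᶜ : Set B), N i j = M i j := fun i hi j hj =>
    hoff i (by simpa using hi) j (by simpa using hj)
  have hcomm : ∀ {x : Art N}, x ∈ P N (lnk M b) → ∀ k : ℤ, g N b ^ k * x = x * g N b ^ k := by
    intro x hx k
    refine comm_P (P_mono ?_ hx) k
    rintro u ⟨hu1, hu2⟩
    exact ⟨hu1, h2 u hu2⟩
  have hv : ∀ {u : List (B × ℤ)}, ct b u = 0 → val N u ∈ P N ({b}ᶜ : Set B) := fun hu =>
    val_mem (ct_eq_zero hu)
  have htY : ∀ k : ℤ, g N t ^ k ∈ P N ({b}ᶜ : Set B) := fun k =>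
    zpow_mem (g_mem (by simpa using htb)) k
  obtain ⟨α1', hα1', rfl⟩ := pj_surj h hα1
  obtain ⟨β1', hβ1', rfl⟩ := pj_surj h hβ1
  obtain ⟨α2', hα2', rfl⟩ := pj_surj h hα2
  obtain ⟨β2', hβ2', rfl⟩ := pj_surj h hβ2
  obtain ⟨α3', hα3', rfl⟩ := pj_surj h hα3
  obtain ⟨β3', hβ3', rfl⟩ := pj_surj h hβ3
  have hb : ∀ {x : Art N}, x ∈ P N (lnk M b) → x ∈ P N ({b}ᶜ : Set B) := fun hx =>
    P_mono lnk_sub_self hx
  have F1 : val N y = α1' * g N t ^ (-d) * β1' := by
    refine pj_inj h hY (hv hy) (mul_mem (mul_mem (hb hα1') (htY _)) (hb hβ1')) ?_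
    rw [pj_val, E1, map_mul, map_mul, map_zpow, pj_g]
  have F2 : val N z' = α2' * g N t ^ (-a) * β2' := by
    refine pj_inj h hY (hv hz') (mul_mem (mul_mem (hb hα2') (htY _)) (hb hβ2')) ?_
    rw [pj_val, E2, map_mul, map_mul, map_zpow, pj_g]
  have F3 : val N v' * val N u = α3' * g N t ^ (-c) * β3' := by
    refine pj_inj h hY (mul_mem (hv hv0) (hv hu))
      (mul_mem (mul_mem (hb hα3') (htY _)) (hb hβ3')) ?_
    rw [map_mul, pj_val, pj_val, E3, map_mul, map_mul, map_zpow, pj_g]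
  have hsub : lnk M b ∩ lnk M t ⊆ ({b}ᶜ : Set B) := fun x hx => lnk_sub_self hx.1
  have n1 : β1' * α2' ∈ P N (lnk M b ∩ lnk M t) := by
    refine pj_mem h hY hsub (mul_mem (hb hβ1') (hb hα2')) ?_
    rw [map_mul]; exact m1
  have n2 : β2' * α3' ∈ P N (lnk M b ∩ lnk M t) := by
    refine pj_mem h hY hsub (mul_mem (hb hβ2') (hb hα3')) ?_
    rw [map_mul]; exact m2
  have n3 : β3' * α1' ∈ P N (lnk M b ∩ lnk M t) := by
    refine pj_mem h hY hsub (mul_mem (hb hβ3') (hb hα1')) ?_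
    rw [map_mul]; exact m3
  have hγ' : (β1' * α2') * (β2' * α3') * (β3' * α1') = 1 := by
    refine pj_inj h hY (P_mono hsub (mul_mem (mul_mem n1 n2) n3)) (one_mem _) ?_
    simp only [map_mul, map_one]
    exact hγ
  have hX' : g N b ^ a * g N t ^ (-d) * g N b ^ c * g N t ^ (-a) * g N b ^ d * g N t ^ (-c) =
      1 := by
    have q1 : ∀ k : ℤ, g N b ^ k ∈ P N ({b, t} : Set B) := fun k => zpow_mem (g_mem (by simp)) k
    have q2 : ∀ k : ℤ, g N t ^ k ∈ P N ({b, t} : Set B) := fun k => zpow_mem (g_mem (by simp)) k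
    refine pj_inj h (Y := ({b, t} : Set B)) ?_ (mul_mem (mul_mem (mul_mem (mul_mem (mul_mem
      (q1 _) (q2 _)) (q1 _)) (q2 _)) (q1 _)) (q2 _)) (one_mem _) ?_
    · rintro i (rfl | rfl) j (rfl | rfl)
      · rw [N.diagonal, M.diagonal]
      · rw [N.symmetric, M.symmetric, hNt, hMt]
      · rw [hNt, hMt]
      · rw [N.diagonal, M.diagonal]
    · simp only [map_mul, map_zpow, map_one, pj_g]
      exact hX
  -- the commutations with `t`
  have hcommt : ∀ {x : Art N}, x ∈ P N (lnk M b ∩ lnk M t) → ∀ k : ℤ,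
      x * g N t ^ k = g N t ^ k * x := by
    intro x hx k
    symm
    refine comm_P (P_mono ?_ hx) k
    rintro u ⟨⟨hu1, _⟩, hu2, hu3⟩
    refine ⟨hu2, ?_⟩
    rw [hoff u hu1 t htb]
    exact hu3
  have hcommb : ∀ {x : Art N}, x ∈ P N (lnk M b ∩ lnk M t) → ∀ k : ℤ,
      x * g N b ^ k = g N b ^ k * x := fun hx k =>
    (hcomm (P_mono Set.inter_subset_left hx) k).symm
  have c1 := hcomm hα1' a
  have c2 := hcomm hα2' c
  have c3 := hcomm hα3' d
  have n12 := mul_mem n1 n2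
  have efin : g N b ^ a * val N y * g N b ^ c * val N z' * g N b ^ d * (val N v' * val N u) =
      1 := by
    rw [F1, F2, F3]
    calc g N b ^ a * (α1' * g N t ^ (-d) * β1') * g N b ^ c * (α2' * g N t ^ (-a) * β2') *
          g N b ^ d * (α3' * g N t ^ (-c) * β3')
        = (g N b ^ a * α1') * g N t ^ (-d) * β1' * (g N b ^ c * α2') * g N t ^ (-a) * β2' *
          (g N b ^ d * α3') * g N t ^ (-c) * β3' := by group
      _ = (α1' * g N b ^ a) * g N t ^ (-d) * β1' * (α2' * g N b ^ c) * g N t ^ (-a) * β2' *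
          (α3' * g N b ^ d) * g N t ^ (-c) * β3' := by rw [c1, c2, c3]
      _ = α1' * g N b ^ a * g N t ^ (-d) * ((β1' * α2') * g N b ^ c) * g N t ^ (-a) *
          (β2' * α3') * g N b ^ d * g N t ^ (-c) * (β3' * α1') * α1'⁻¹ := by group
      _ = α1' * g N b ^ a * g N t ^ (-d) * g N b ^ c * ((β1' * α2') * g N t ^ (-a)) *
          (β2' * α3') * g N b ^ d * g N t ^ (-c) * (β3' * α1') * α1'⁻¹ := by
            rw [hcommb n1]; group
      _ = α1' * g N b ^ a * g N t ^ (-d) * g N b ^ c * g N t ^ (-a) * (((β1' * α2') *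
          (β2' * α3')) * g N b ^ d) * g N t ^ (-c) * (β3' * α1') * α1'⁻¹ := by
            rw [hcommt n1]; group
      _ = α1' * g N b ^ a * g N t ^ (-d) * g N b ^ c * g N t ^ (-a) * g N b ^ d *
          (((β1' * α2') * (β2' * α3')) * g N t ^ (-c)) * (β3' * α1') * α1'⁻¹ := by
            rw [hcommb n12]; group
      _ = α1' * (g N b ^ a * g N t ^ (-d) * g N b ^ c * g N t ^ (-a) * g N b ^ d *
          g N t ^ (-c)) * ((β1' * α2') * (β2' * α3') * (β3' * α1')) * α1'⁻¹ := by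
            rw [hcommt n12]; group
      _ = 1 := by rw [hX', hγ']; group
  have h1 := congrArg (fun t => val N u * t * (val N u)⁻¹) efin
  rw [val_append, val_cons, val_append, val_cons, val_append, val_cons]
  show val N u * (g N b ^ a * (val N y * (g N b ^ c * (val N z' * (g N b ^ d * val N v'))))) = 1
  simp only [mul_one, mul_inv_cancel] at h1
  rw [← h1]
  group

end step

end Pool.Agent.U369.AR
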