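import Pool.Agent.U369.AR.Three

/-!
# The structure of relations with three odd syllables of a generator
-/

set_option autoImplicit false
set_option linter.unusedSectionVars false

namespace Pool.Agent.U369.AR

open Pool.Agent.Helper741 Pool.Agent.K7.H87.FJ6 Pool.Agent.K7.H20.AW CoxeterSystem

section facts

variable {B : Type*} [Fintype B] [DecidableEq B] {M : CoxeterMatrix B}

/-- a generator with a single odd syllable -/
theorem once_false {t : B} {u v : Art M} (hu : u ∈ P M ({t}ᶜ : Set B)) (hv : v ∈ P M ({t}ᶜ : Set B))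
    {k : ℤ} (hk : Odd k) (e : u * g M t ^ k * v = 1) : False := by
  have h1 : g M t ^ k ∈ P M ({t}ᶜ : Set B) := by
    have h2 : g M t ^ k = u⁻¹ * v⁻¹ := by
      have h3 : u * g M t ^ k = v⁻¹ := by rw [eq_inv_iff_mul_eq_one]; exact e
      rw [← h3]
      group
    rw [h2]
    exact mul_mem (inv_mem hu) (inv_mem hv)
  rw [Pool.Agent.K7.H20.AW.pow_mem h1] at hk
  exact absurd hk (by decide)

/-- the normal form of a relation with three odd syllables of `b` -/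
theorem three_struct {b : B} {a c d : ℤ} {g1 g2 g3 : Art M}
    (hg1 : g1 ∈ P M {b}ᶜ) (hg2 : g2 ∈ P M {b}ᶜ) (hg3 : g3 ∈ P M {b}ᶜ) (ha : Odd a) (hc : Odd c)
    (hd : Odd d) (e : g M b ^ a * g1 * g M b ^ c * g2 * g M b ^ d * g3 = 1) :
    ∃ t, t ≠ b ∧ M t b = 3 ∧
      ∃ α1 ∈ P M (lnk M b), ∃ β1 ∈ P M (lnk M b), ∃ α2 ∈ P M (lnk M b), ∃ β2 ∈ P M (lnk M b),
      ∃ α3 ∈ P M (lnk M b), ∃ β3 ∈ P M (lnk M b),
      g1 = α1 * g M t ^ (-d) * β1 ∧ g2 = α2 * g M t ^ (-a) * β2 ∧ g3 = α3 * g M t ^ (-c) * β3 ∧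
      β1 * α2 ∈ P M (lnk M b ∩ lnk M t) ∧ β2 * α3 ∈ P M (lnk M b ∩ lnk M t) ∧
      β3 * α1 ∈ P M (lnk M b ∩ lnk M t) ∧
      g M b ^ a * g M t ^ (-d) * g M b ^ c * g M t ^ (-a) * g M b ^ d * g M t ^ (-c) = 1 ∧
      (β1 * α2) * (β2 * α3) * (β3 * α1) = 1 := by
  have r3 : g M b ^ a * g1 * g M b ^ c * g2 * g M b ^ d = g3⁻¹ := by
    rw [eq_inv_iff_mul_eq_one]; exact e
  have r1 : g M b ^ c * g2 * g M b ^ d * g3 * g M b ^ a = g1⁻¹ := by
    rw [eq_inv_iff_mul_eq_one]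
    have := congrArg (fun x => (g M b ^ a * g1)⁻¹ * x * (g M b ^ a * g1)) e
    simp only [mul_one, inv_mul_cancel] at this
    rw [← this]
    group
  have r2 : g M b ^ d * g3 * g M b ^ a * g1 * g M b ^ c = g2⁻¹ := by
    rw [eq_inv_iff_mul_eq_one]
    have := congrArg (fun x => (g M b ^ a * g1 * g M b ^ c * g2)⁻¹ * x *
      (g M b ^ a * g1 * g M b ^ c * g2)) e
    simp only [mul_one, inv_mul_cancel] at this
    rw [← this]
    group
  obtain ⟨t3, ht3, hM3, x3, hx3, y3, hy3, e3⟩ :=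
    three_odd_struct hg1 hg2 (inv_mem hg3) ha hc hd r3
  obtain ⟨t1, ht1, hM1, x1, hx1, y1, hy1, e1⟩ :=
    three_odd_struct hg2 hg3 (inv_mem hg1) hc hd ha r1
  obtain ⟨t2, ht2, hM2, x2, hx2, y2, hy2, e2⟩ :=
    three_odd_struct hg3 hg1 (inv_mem hg2) hd ha hc r2
  have E3 : g3 = y3⁻¹ * g M t3 ^ (-c) * x3⁻¹ := by
    rw [← inv_inv g3, e3]; group
  have E1 : g1 = y1⁻¹ * g M t1 ^ (-d) * x1⁻¹ := by
    rw [← inv_inv g1, e1]; group
  have E2 : g2 = y2⁻¹ * g M t2 ^ (-a) * x2⁻¹ := by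
    rw [← inv_inv g2, e2]; group
  clear r1 r2 r3 e1 e2 e3
  -- the normalised relation
  have hA1 := inv_mem hy1
  have hB1 := inv_mem hx1
  have hA2 := inv_mem hy2
  have hB2 := inv_mem hx2
  have hA3 := inv_mem hy3
  have hB3 := inv_mem hx3
  generalize y1⁻¹ = α1 at *
  generalize x1⁻¹ = β1 at *
  generalize y2⁻¹ = α2 at *
  generalize x2⁻¹ = β2 at *
  generalize y3⁻¹ = α3 at *
  generalize x3⁻¹ = β3 at *
  have c1 : g M b ^ a * α1 = α1 * g M b ^ a := comm_P hA1 a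
  have c2 : g M b ^ c * α2 = α2 * g M b ^ c := comm_P hA2 c
  have c3 : g M b ^ d * α3 = α3 * g M b ^ d := comm_P hA3 d
  have eN : g M b ^ a * g M t1 ^ (-d) * (β1 * α2) * g M b ^ c * g M t2 ^ (-a) * (β2 * α3) *
      g M b ^ d * g M t3 ^ (-c) * (β3 * α1) = 1 := by
    have h1 : g M b ^ a * g1 * g M b ^ c * g2 * g M b ^ d * g3 =
        α1 * (g M b ^ a * g M t1 ^ (-d) * (β1 * α2) * g M b ^ c * g M t2 ^ (-a) * (β2 * α3) *
      g M b ^ d * g M t3 ^ (-c) * (β3 * α1)) * α1⁻¹ := by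
      rw [E1, E2, E3]
      calc g M b ^ a * (α1 * g M t1 ^ (-d) * β1) * g M b ^ c * (α2 * g M t2 ^ (-a) * β2) *
            g M b ^ d * (α3 * g M t3 ^ (-c) * β3)
          = (g M b ^ a * α1) * g M t1 ^ (-d) * β1 * (g M b ^ c * α2) * g M t2 ^ (-a) * β2 *
            (g M b ^ d * α3) * g M t3 ^ (-c) * β3 := by group
        _ = (α1 * g M b ^ a) * g M t1 ^ (-d) * β1 * (α2 * g M b ^ c) * g M t2 ^ (-a) * β2 *
            (α3 * g M b ^ d) * g M t3 ^ (-c) * β3 := by rw [c1, c2, c3]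
        _ = _ := by group
    rw [h1] at e
    have := congrArg (fun x => α1⁻¹ * x * α1) e
    simp only [mul_one, inv_mul_cancel] at this
    rw [← this]
    group
  have hG1 := mul_mem hB1 hA2
  have hG2 := mul_mem hB2 hA3
  have hG3 := mul_mem hB3 hA1
  have hin : ∀ {t : B}, M t b = 3 → ∀ {x : Art M}, x ∈ P M (lnk M b) →
      x ∈ P M ({t}ᶜ : Set B) := fun ht x hx =>
    P_mono (lnk_sub (by rw [ht]; norm_num)) hx
  have hgen : ∀ {t s : B}, s ≠ t → ∀ k : ℤ, g M s ^ k ∈ P M ({t}ᶜ : Set B) := fun hs k =>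
    zpow_mem (g_mem (by simpa using hs)) k
  -- the three labels agree
  have k1 : t1 = t2 ∨ t1 = t3 := by
    by_contra hcon
    push Not at hcon
    refine once_false (M := M) (t := t1) (u := g M b ^ a)
      (v := (β1 * α2) * g M b ^ c * g M t2 ^ (-a) * (β2 * α3) *
        g M b ^ d * g M t3 ^ (-c) * (β3 * α1)) (hgen ht1.symm _) ?_ hd.neg ?_
    · exact mul_mem (mul_mem (mul_mem (mul_mem (mul_mem (mul_mem (hin hM1 hG1)
        (hgen ht1.symm _)) (hgen hcon.1.symm _)) (hin hM1 hG2)) (hgen ht1.symm _))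
        (hgen hcon.2.symm _)) (hin hM1 hG3)
    · rw [← eN]; simp only [mul_assoc]
  have k2 : t2 = t1 ∨ t2 = t3 := by
    by_contra hcon
    push Not at hcon
    refine once_false (M := M) (t := t2) (u := g M b ^ a * g M t1 ^ (-d) * (β1 * α2) * g M b ^ c)
      (v := (β2 * α3) * g M b ^ d * g M t3 ^ (-c) * (β3 * α1)) ?_ ?_ ha.neg ?_
    · exact mul_mem (mul_mem (mul_mem (hgen ht2.symm _) (hgen hcon.1.symm _)) (hin hM2 hG1))
        (hgen ht2.symm _)
    · exact mul_mem (mul_mem (mul_mem (hin hM2 hG2) (hgen ht2.symm _)) (hgen hcon.2.symm _))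
        (hin hM2 hG3)
    · rw [← eN]; simp only [mul_assoc]
  have k3 : t3 = t1 ∨ t3 = t2 := by
    by_contra hcon
    push Not at hcon
    refine once_false (M := M) (t := t3) (u := g M b ^ a * g M t1 ^ (-d) * (β1 * α2) * g M b ^ c *
      g M t2 ^ (-a) * (β2 * α3) * g M b ^ d) (v := β3 * α1) ?_ (hin hM3 hG3) hc.neg ?_
    · exact mul_mem (mul_mem (mul_mem (mul_mem (mul_mem (mul_mem (hgen ht3.symm _)
        (hgen hcon.1.symm _)) (hin hM3 hG1)) (hgen ht3.symm _)) (hgen hcon.2.symm _))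
        (hin hM3 hG2)) (hgen ht3.symm _)
    · rw [← eN]
  have k12 : t2 = t1 := by
    rcases k1 with h | h
    · exact h.symm
    · rcases k2 with h' | h'
      · exact h'
      · exact h'.trans h.symm
  have k13 : t3 = t1 := by
    rcases k3 with h | h
    · exact h
    · exact h.trans k12
  subst k12
  subst k13
  -- the middle parts
  have eR1 : g M b ^ c * g M t3 ^ (-a) * (β2 * α3) * g M b ^ d * g M t3 ^ (-c) * (β3 * α1) *
      g M b ^ a * g M t3 ^ (-d) * (β1 * α2) = 1 := by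
    have := congrArg (fun x => (g M b ^ a * g M t3 ^ (-d) * (β1 * α2))⁻¹ * x *
      (g M b ^ a * g M t3 ^ (-d) * (β1 * α2))) eN
    simp only [mul_one, inv_mul_cancel] at this
    rw [← this]
    group
  have eR2 : g M b ^ d * g M t3 ^ (-c) * (β3 * α1) * g M b ^ a * g M t3 ^ (-d) * (β1 * α2) *
      g M b ^ c * g M t3 ^ (-a) * (β2 * α3) = 1 := by
    have := congrArg (fun x => (g M b ^ c * g M t3 ^ (-a) * (β2 * α3))⁻¹ * x *
      (g M b ^ c * g M t3 ^ (-a) * (β2 * α3))) eR1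
    simp only [mul_one, inv_mul_cancel] at this
    rw [← this]
    group
  have m3 := norm_step ht3 hM3 ha hc hd hG1 hG2 hG3 eN
  have m1 := norm_step ht3 hM3 hc hd ha hG2 hG3 hG1 eR1
  have m2 := norm_step ht3 hM3 hd ha hc hG3 hG1 hG2 eR2
  refine ⟨t3, ht3, hM3, α1, hA1, β1, hB1, α2, hA2, β2, hB2, α3, hA3, β3, hB3, E1, E2, E3,
    m1, m2, m3, ?_⟩
  set γ1 := β1 * α2 with hγ1
  set γ2 := β2 * α3 with hγ2
  set γ3 := β3 * α1 with hγ3
  have cb : ∀ {x : Art M}, x ∈ P M (lnk M b ∩ lnk M t3) → ∀ k : ℤ,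
      x * g M b ^ k = g M b ^ k * x := fun hx k =>
    (comm_P (P_mono Set.inter_subset_left hx) k).symm
  have ct : ∀ {x : Art M}, x ∈ P M (lnk M b ∩ lnk M t3) → ∀ k : ℤ,
      x * g M t3 ^ k = g M t3 ^ k * x := fun hx k =>
    (comm_P (P_mono Set.inter_subset_right hx) k).symm
  have m12 := mul_mem m1 m2
  have eX : (g M b ^ a * g M t3 ^ (-d) * g M b ^ c * g M t3 ^ (-a) * g M b ^ d *
      g M t3 ^ (-c)) * (γ1 * γ2 * γ3) = 1 := by
    rw [← eN]
    symm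
    calc g M b ^ a * g M t3 ^ (-d) * γ1 * g M b ^ c * g M t3 ^ (-a) * γ2 *
          g M b ^ d * g M t3 ^ (-c) * γ3
        = g M b ^ a * g M t3 ^ (-d) * (γ1 * g M b ^ c) * g M t3 ^ (-a) * γ2 *
          g M b ^ d * g M t3 ^ (-c) * γ3 := by group
      _ = g M b ^ a * g M t3 ^ (-d) * g M b ^ c * (γ1 * g M t3 ^ (-a)) * γ2 *
          g M b ^ d * g M t3 ^ (-c) * γ3 := by rw [cb m1]; group
      _ = g M b ^ a * g M t3 ^ (-d) * g M b ^ c * g M t3 ^ (-a) * ((γ1 * γ2) *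
          g M b ^ d) * g M t3 ^ (-c) * γ3 := by rw [ct m1]; group
      _ = g M b ^ a * g M t3 ^ (-d) * g M b ^ c * g M t3 ^ (-a) * 
          g M b ^ d * ((γ1 * γ2) * g M t3 ^ (-c)) * γ3 := by rw [cb m12]; group
      _ = _ := by rw [ct m12]; group
  have hX1 : (g M b ^ a * g M t3 ^ (-d) * g M b ^ c * g M t3 ^ (-a) * g M b ^ d *
      g M t3 ^ (-c)) ∈ P M ({b, t3} : Set B) := by
    have q1 : ∀ k : ℤ, g M b ^ k ∈ P M ({b, t3} : Set B) := fun k => zpow_mem (g_mem (by simp)) k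
    have q2 : ∀ k : ℤ, g M t3 ^ k ∈ P M ({b, t3} : Set B) := fun k => zpow_mem (g_mem (by simp)) k
    exact mul_mem (mul_mem (mul_mem (mul_mem (mul_mem (q1 _) (q2 _)) (q1 _)) (q2 _)) (q1 _)) (q2 _)
  have hX2 := eq_inv_of_mul_eq_one_left eX
  have hX3 : (g M b ^ a * g M t3 ^ (-d) * g M b ^ c * g M t3 ^ (-a) * g M b ^ d *
      g M t3 ^ (-c)) ∈ P M (lnk M b ∩ lnk M t3) := by
    rw [hX2]
    exact inv_mem (mul_mem m12 m3)
  have hX4 := P_inter hX1 hX3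
  have hemp : ({b, t3} ∩ (lnk M b ∩ lnk M t3) : Set B) = ∅ := by
    apply Set.eq_empty_of_forall_notMem
    rintro x ⟨hx, ⟨h1, _⟩, ⟨h2, _⟩⟩
    rcases hx with hx | hx
    · exact h1 hx
    · exact h2 hx
  rw [hemp] at hX4
  have hX5 := P_empty hX4
  refine ⟨hX5, ?_⟩
  rw [hX5, one_mul] at eX
  exact eX

end facts

end Pool.Agent.U369.AR
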