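import Pool.Agent.K7.H20.AW.Dec

/-!
# Three odd syllables of a generator in a relation of an Artin group

If `b ^ a * g1 * b ^ c * g2 * b ^ d = h` in an Artin group, where `a`, `c`, `d` are odd and `g1`,
`g2`, `h` are products of the other generators, then `h = α * t ^ c * β` with a generator `t` which
has the label three with `b`, and `α`, `β` products of generators which commute with `b`.
-/

set_option autoImplicit false
set_option linter.unusedSectionVars false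

namespace Pool.Agent.U369.AR

open Pool.Agent.Helper741 Pool.Agent.K7.H87.FJ6 Pool.Agent.K7.H20.AW CoxeterSystem

section facts

variable {B : Type*} [Fintype B] [DecidableEq B] {M : CoxeterMatrix B}

/-- the powers of a generator which fixes a coset -/
theorem ac_pos_zpow {A W : Type*} [Group W] {cs : CoxeterSystem M W} {ι : A → B}
    {hι : Function.Injective ι} {b : B} {v : {v : W // Mn cs ι v}} {x : A}
    (h : cs.simple b * v.1 = v.1 * cs.simple (ι x)) (k : ℤ)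
    (a : Sh (pull M ι hι) (z0 B ∘ ι)) :
    ((ac cs ι hι (g M b)) ^ k) (a, v) = (Sh.gen _ _ x ^ k * a, v) := by
  have hn : ∀ (n : ℕ) (a : Sh (pull M ι hι) (z0 B ∘ ι)),
      ((ac cs ι hι (g M b)) ^ n) (a, v) = (Sh.gen _ _ x ^ n * a, v) := by
    intro n
    induction n with
    | zero => intro a; rw [pow_zero, pow_zero, one_mul]; rfl
    | succ n ih =>
      intro a
      rw [pow_succ', Equiv.Perm.mul_apply, ih, ac_pos h, pow_succ', mul_assoc]
  obtain ⟨n, rfl | rfl⟩ := k.eq_nat_or_neg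
  · rw [zpow_natCast, zpow_natCast]
    exact hn n a
  · rw [zpow_neg, zpow_neg, zpow_natCast, zpow_natCast, Equiv.Perm.inv_eq_iff_eq, hn,
      mul_inv_cancel_left]

/-- three odd syllables: the structure of the element of the other generators -/
theorem three_odd_struct {b : B} {a c d : ℤ} {g1 g2 h : Art M}
    (hg1 : g1 ∈ P M {b}ᶜ) (hg2 : g2 ∈ P M {b}ᶜ) (hh : h ∈ P M {b}ᶜ) (ha : Odd a) (hc : Odd c)
    (hd : Odd d) (e : g M b ^ a * g1 * g M b ^ c * g2 * g M b ^ d = h) :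
    ∃ t, t ≠ b ∧ M t b = 3 ∧ ∃ α ∈ P M {x | x ≠ b ∧ M x b = 2},
      ∃ β ∈ P M {x | x ≠ b ∧ M x b = 2}, h = α * g M t ^ c * β := by
  let cs := M.toCoxeterSystem
  let ι : {x : B // x ≠ b} → B := Subtype.val
  have hι : Function.Injective ι := Subtype.val_injective
  have hr : Set.range ι = {b}ᶜ := by
    ext x
    simp [ι]
  have hh' := hh
  rw [← hr] at hh'
  obtain ⟨h', hh''⟩ := P_range (hι := hι) hh'
  have h0 : ¬ ∃ x, cs.simple b * 1 = 1 * cs.simple (ι x) := by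
    rintro ⟨x, hx⟩
    rw [mul_one, one_mul] at hx
    exact x.2 (simple_injective cs hx).symm
  let p1 : {v : M.Group // Mn cs ι v} := ⟨1, Mn_one cs ι⟩
  let pb : {v : M.Group // Mn cs ι v} := ⟨cs.simple b * 1, Mn_move cs ι (Mn_one cs ι) h0⟩
  have a1 : ∀ a, ac cs ι hι (g M b) (a, p1) = (a, pb) := fun a => ac_neg h0
  have a2 : ∀ a, ac cs ι hι (g M b) (a, pb) = (a, p1) := by
    intro a
    rw [ac_neg (v := pb) (back cs ι h0)]
    refine Prod.ext rfl (Subtype.ext ?_)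
    show cs.simple b * (cs.simple b * 1) = 1
    rw [mul_one, cs.simple_mul_simple_self]
  have hbW : cs.simple b ∉ PW cs {b}ᶜ := fun h => mem_of_simple_mem cs h rfl
  let V' : Set M.Group := {v | ∃ w ∈ PW cs {b}ᶜ, v = w * cs.simple b}
  have hT : ∀ y ∈ P M ({b}ᶜ : Set B), Tk cs ι hι {x | M (ι x) b = 2} V' y := by
    intro y hy
    refine track ?_ ?_ hy
    · rintro d hd v ⟨w, hw, rfl⟩
      exact ⟨cs.simple d * w, mul_mem (PW_mem cs hd) hw, (mul_assoc _ _ _).symm⟩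
    · rintro d hd v ⟨w, hw, rfl⟩ x hx
      refine comm_of_mem cs (V := {b}ᶜ) (b := b) (x := ι x) (fun h => h rfl) x.2 ?_
      have hb := cs.simple_mul_simple_self b
      have h3 : cs.simple b * cs.simple (ι x) * cs.simple b = w⁻¹ * cs.simple d * w := by
        calc cs.simple b * cs.simple (ι x) * cs.simple b
            = w⁻¹ * ((w * cs.simple b) * cs.simple (ι x)) * cs.simple b := by group
          _ = w⁻¹ * (cs.simple d * (w * cs.simple b)) * cs.simple b := by rw [hx]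
          _ = w⁻¹ * cs.simple d * w * (cs.simple b * cs.simple b) := by group
          _ = w⁻¹ * cs.simple d * w := by rw [hb, mul_one]
      rw [h3]
      exact mul_mem (mul_mem (inv_mem hw) (PW_mem cs hd)) hw
  have hpb : pb.1 ∈ V' := ⟨1, one_mem _, by
    show cs.simple b * 1 = 1 * cs.simple b
    rw [mul_one, one_mul]⟩
  have e' : g1 * g M b ^ c * g2 * g M b ^ d = g M b ^ (-a) * h := by
    rw [← e]
    group
  have k1 : ac cs ι hι g1 (((ac cs ι hι (g M b)) ^ c)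
      (ac cs ι hι g2 (((ac cs ι hι (g M b)) ^ d) (1, p1)))) =
      ((ac cs ι hι (g M b)) ^ (-a)) (ac cs ι hι h (1, p1)) := by
    have h1 := congrArg (fun x => ac cs ι hι x (1, p1)) e'
    simp only [map_mul, map_zpow, Equiv.Perm.mul_apply] at h1
    exact h1
  rw [(zpow_swap _ (a1 1) (a2 1) d).2 hd, ← hh'', ac_inc] at k1
  have k2 : ac cs ι hι g1 (((ac cs ι hι (g M b)) ^ c) (ac cs ι hι g2 (1, pb))) =
      ((ac cs ι hι (g M b)) ^ (-a)) (h' * 1, p1) := k1
  rw [(zpow_swap _ (a1 (h' * 1)) (a2 (h' * 1)) (-a)).2 (by simpa using ha)] at k2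
  obtain ⟨c1, hc1, v1, ⟨w, hw, hv1⟩, e1⟩ := hT g2 hg2 1 pb hpb
  rw [e1] at k2
  by_cases hfix : ∃ x, cs.simple b * v1.1 = v1.1 * cs.simple (ι x)
  · obtain ⟨x, hx⟩ := hfix
    have hx' : cs.simple b * (w * cs.simple b) = (w * cs.simple b) * cs.simple (ι x) := by
      rw [← hv1]; exact hx
    have hM : M (ι x) b = 3 := label_three cs x.2 hw hx'
    rw [ac_pos_zpow hx] at k2
    obtain ⟨c2, hc2, v2, _, e2⟩ := hT g1 hg1 (Sh.gen _ _ x ^ c * (c1 * 1)) v1 ⟨w, hw, hv1⟩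
    rw [k2] at e2
    have e3 : h' * 1 = c2 * (Sh.gen _ _ x ^ c * (c1 * 1)) := congrArg Prod.fst e2
    rw [mul_one, mul_one] at e3
    have hL : ι '' {x | M (ι x) b = 2} ⊆ {x | x ≠ b ∧ M x b = 2} := by
      rintro _ ⟨x, hx, rfl⟩
      exact ⟨x.2, hx⟩
    refine ⟨ι x, x.2, hM, inc M (z0 B) ι hι c2, P_mono hL (inc_mem hc2),
      inc M (z0 B) ι hι c1, P_mono hL (inc_mem hc1), ?_⟩
    rw [← hh'', e3, map_mul, map_mul, map_zpow, inc_gen, mul_assoc]
  · exfalso
    have f1 := ac_neg (hι := hι) (a := c1 * 1) hfix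
    have f2 : ac cs ι hι (g M b) (c1 * 1, ⟨cs.simple b * v1.1, Mn_move cs ι v1.2 hfix⟩) =
        (c1 * 1, v1) := by
      rw [ac_neg (v := ⟨cs.simple b * v1.1, Mn_move cs ι v1.2 hfix⟩) (back cs ι hfix)]
      refine Prod.ext rfl (Subtype.ext ?_)
      show cs.simple b * (cs.simple b * v1.1) = v1.1
      rw [← mul_assoc, cs.simple_mul_simple_self, one_mul]
    rw [(zpow_swap _ f1 f2 c).2 hc] at k2
    have hT2 : Tk cs ι hι Set.univ {v | ∃ u ∈ PW cs {b}ᶜ, v = u * (cs.simple b * v1.1)} g1 := by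
      refine track ?_ (fun _ _ _ _ _ _ => trivial) hg1
      rintro d hd v ⟨w, hw, rfl⟩
      exact ⟨cs.simple d * w, mul_mem (PW_mem cs hd) hw, (mul_assoc _ _ _).symm⟩
    obtain ⟨c2, _, v2, ⟨u, hu, hv2⟩, e2⟩ := hT2 (c1 * 1)
      ⟨cs.simple b * v1.1, Mn_move cs ι v1.2 hfix⟩ ⟨1, one_mem _, by rw [one_mul]⟩
    rw [k2] at e2
    have e3 : cs.simple b * 1 = v2.1 := congrArg (fun p => p.2.1) e2
    rw [hv2, hv1] at e3
    apply hbW
    have e4 : cs.simple b = u⁻¹ * w⁻¹ := by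
      rw [mul_one] at e3
      have e5 : u * (cs.simple b * w) = 1 := by
        have e6 : u * (cs.simple b * w) * cs.simple b = cs.simple b := by
          rw [mul_assoc, mul_assoc, ← e3]
        exact mul_eq_right.1 e6
      have e7 : cs.simple b * w = u⁻¹ := (inv_eq_of_mul_eq_one_right e5).symm
      rw [← e7, mul_inv_cancel_right]
    rw [e4]
    exact mul_mem (inv_mem hu) (inv_mem hw)

/-- the commuting generators -/
abbrev lnk (M : CoxeterMatrix B) (b : B) : Set B := {x | x ≠ b ∧ M x b = 2}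

theorem lnk_sub {b t : B} (ht : M t b ≠ 2) : lnk M b ⊆ ({t}ᶜ : Set B) := by
  rintro u ⟨_, hu⟩ rfl
  exact ht hu

theorem lnk_sub_self {b : B} : lnk M b ⊆ ({b}ᶜ : Set B) := by
  rintro u ⟨hu, _⟩ rfl
  exact hu rfl

/-- one step for the normalised relation -/
theorem norm_step {b t : B} (htb : t ≠ b) (hM : M t b = 3) {a c d : ℤ} (ha : Odd a) (hc : Odd c)
    (hd : Odd d) {γ1 γ2 γ3 : Art M} (h1 : γ1 ∈ P M (lnk M b)) (h2 : γ2 ∈ P M (lnk M b))
    (h3 : γ3 ∈ P M (lnk M b))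
    (e : g M b ^ a * g M t ^ (-d) * γ1 * g M b ^ c * g M t ^ (-a) * γ2 * g M b ^ d *
      g M t ^ (-c) * γ3 = 1) :
    γ3 ∈ P M (lnk M b ∩ lnk M t) := by
  have ht2 : M t b ≠ 2 := by rw [hM]; norm_num
  have hbt : b ∈ ({t}ᶜ : Set B) := by simpa using htb.symm
  have hmt : ∀ {x : Art M}, x ∈ P M (lnk M b) → x ∈ P M ({t}ᶜ : Set B) := fun hx =>
    P_mono (lnk_sub ht2) hx
  have hmb : ∀ {x : Art M}, x ∈ P M (lnk M b) → x ∈ P M ({b}ᶜ : Set B) := fun hx =>
    P_mono lnk_sub_self hx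
  have e1 : g M t ^ (-d) * (γ1 * g M b ^ c) * g M t ^ (-a) * (γ2 * g M b ^ d) * g M t ^ (-c) =
      (γ3 * g M b ^ a)⁻¹ := by
    rw [eq_inv_iff_mul_eq_one]
    have := congrArg (fun x => (g M b ^ a)⁻¹ * x * g M b ^ a) e
    simp only [mul_one, inv_mul_cancel] at this
    rw [← this]
    group
  obtain ⟨s, hst, hs3, α, hα, β, hβ, e2⟩ := three_odd_struct (b := t)
    (mul_mem (hmt h1) (zpow_mem (g_mem hbt) _)) (mul_mem (hmt h2) (zpow_mem (g_mem hbt) _))
    (inv_mem (mul_mem (hmt h3) (zpow_mem (g_mem hbt) _))) hd.neg ha.neg hc.neg e1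
  have hbt2 : M b t ≠ 2 := by rw [M.symmetric]; exact ht2
  have hαb : α ∈ P M ({b}ᶜ : Set B) := P_mono (lnk_sub hbt2) hα
  have hβb : β ∈ P M ({b}ᶜ : Set B) := P_mono (lnk_sub hbt2) hβ
  have hsb : s = b := by
    by_contra hsb
    have e3 : g M b ^ (-a) ∈ P M ({b}ᶜ : Set B) := by
      have e4 : g M b ^ (-a) = α * g M s ^ (-a) * β * γ3 := by
        rw [← e2]
        group
      rw [e4]
      exact mul_mem (mul_mem (mul_mem hαb (zpow_mem (g_mem (by simpa using hsb)) _)) hβb) (hmb h3)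
    have e5 := Pool.Agent.K7.H20.AW.pow_mem e3
    have : a = 0 := by omega
    rw [this] at ha
    exact absurd ha (by decide)
  subst hsb
  have e6 : g M s ^ (-a) * (γ3⁻¹ * β⁻¹) * g M s ^ a = α := by
    have : α = (γ3 * g M s ^ a)⁻¹ * β⁻¹ * g M s ^ a := by
      rw [e2]
      group
    rw [this]
    group
  have hy : γ3⁻¹ * β⁻¹ ∈ P M ({s}ᶜ : Set B) := mul_mem (inv_mem (hmb h3)) (inv_mem hβb)
  rcases two hy hαb e6 with ⟨_, _, h⟩ | ⟨h, _, _⟩
  · have hβ' : β ∈ P M (lnk M s) := by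
      have h5 : β = (γ3⁻¹ * β⁻¹)⁻¹ * γ3⁻¹ := by group
      rw [h5]
      exact mul_mem (inv_mem h) (inv_mem h3)
    have hc1 : g M s ^ (-a) * (γ3⁻¹ * β⁻¹) = (γ3⁻¹ * β⁻¹) * g M s ^ (-a) := comm_P h (-a)
    have hα' : α = γ3⁻¹ * β⁻¹ := by
      rw [← e6, hc1]
      group
    have hα'' : α ∈ P M (lnk M s) := hα' ▸ h
    have h6 : γ3 = (α * β)⁻¹ := by
      rw [hα']
      group
    rw [h6]
    exact inv_mem (mul_mem (P_inter hα'' hα) (P_inter hβ' hβ))
  · exact absurd ha.neg (Int.not_odd_iff_even.2 h)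

end facts

end Pool.Agent.U369.AR
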